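import Pool.Agent.Y744.UNC.Fin

/-!
# Montgomery's pair correlation conjecture follows from a one-sided bound at large distances

No hypothesis is assumed (in particular not the Riemann hypothesis).  Let
`P(a) = ∫_0^a (1 - (sin πu / πu)²) du`.

1. Q1 holds if and only if there are `A, C, c > 0` with
   `liminf N*(T, a) / (T log T) ≥ P(a) / 2π - C e^{-ca}` for all `a ≥ A`.
2. Q1 holds if and only if almost all zeros are on the critical line and there are `A, C, c > 0`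
   such that for all `a ≥ A` the number of ordered pairs of ordinates with `0 < γ ≤ T` at distance
   at most `2πa / log T` (pairs of equal ordinates included) is at most
   `(1 + 2P(a) + C e^{-ca} + o(1)) (T / 2π) log T`.
-/

open MeasureTheory Filter Topology

namespace Pool.Agent.Results.MP_f58427_nt.LargeDistanceCriterion

/-- multiplicity of `s` as a zero of the Riemann zeta function (order of vanishing at `s`) -/
noncomputable def zmult (s : ℂ) : ℕ := analyticOrderNatAt riemannZeta s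

/-- the nontrivial zeros of `ζ` -/
def ZZ : Set ℂ := {s : ℂ | riemannZeta s = 0 ∧ 0 < s.re ∧ s.re < 1}

/-- `N*(T, a)` as in the problem: the number of ordered pairs `(γ, γ')` of ordinates of nontrivial
zeros, counted with multiplicity, with `0 < γ ≤ T` and `0 < γ - γ' ≤ 2πa / log T` -/
noncomputable def Nstar (T a : ℝ) : ℕ :=
  ∑ᶠ p ∈ {p : ℂ × ℂ | p.1 ∈ ZZ ∧ p.2 ∈ ZZ ∧ 0 < p.1.im ∧ p.1.im ≤ T ∧
    0 < p.1.im - p.2.im ∧ p.1.im - p.2.im ≤ 2 * Real.pi * a / Real.log T}, zmult p.1 * zmult p.2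

/-- the number of ordered pairs `(γ, γ')` of equal ordinates of nontrivial zeros, counted with
multiplicity (the pairs of a zero with itself included), with `0 < γ ≤ T` -/
noncomputable def Neq (T : ℝ) : ℕ :=
  ∑ᶠ p ∈ {p : ℂ × ℂ | p.1 ∈ ZZ ∧ p.2 ∈ ZZ ∧ 0 < p.1.im ∧ p.1.im ≤ T ∧ p.1.im = p.2.im},
    zmult p.1 * zmult p.2

/-- the number of zeros off the critical line with ordinate in `(0, T]`, with multiplicity -/
noncomputable def Noff (T : ℝ) : ℕ :=
  ∑ᶠ s ∈ {s : ℂ | s ∈ ZZ ∧ 0 < s.im ∧ s.im ≤ T ∧ s.re ≠ 1 / 2}, zmult s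

/-- the integral of the conjecture (`Real.sinc x = sin x / x`, `Real.sinc 0 = 1`) -/
noncomputable def P (a : ℝ) : ℝ := ∫ u in (0 : ℝ)..a, (1 - Real.sinc (Real.pi * u) ^ 2)

/-- `(T / 2π) log T` -/
noncomputable def N (T : ℝ) : ℝ := T / (2 * Real.pi) * Real.log T

/-- the sets of pairs that are counted are finite -/
theorem pairs_finite (T a : ℝ) : {p : ℂ × ℂ | p.1 ∈ ZZ ∧ p.2 ∈ ZZ ∧ 0 < p.1.im ∧ p.1.im ≤ T ∧
    0 < p.1.im - p.2.im ∧ p.1.im - p.2.im ≤ 2 * Real.pi * a / Real.log T}.Finite :=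
  Pool.Agent.Y750.PC.SP_finite T a

/-- the conjecture Q1 of the problem -/
def Q1 : Prop := ∀ a : ℝ, 0 < a →
  Tendsto (fun T : ℝ => (Nstar T a : ℝ) / (T * Real.log T)) atTop (𝓝 (P a / (2 * Real.pi)))

theorem N_eq (T : ℝ) : N T = Pool.Agent.Y749.Rig.nT T := by
  unfold N Pool.Agent.Y749.Rig.nT
  ring

theorem scale (x T : ℝ) : x / (T * Real.log T) = x / N T / (2 * Real.pi) := by
  have hpi := Real.pi_pos
  unfold N
  rw [div_div, show T / (2 * Real.pi) * Real.log T * (2 * Real.pi) =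
    T * Real.log T * ((2 * Real.pi) / (2 * Real.pi)) by ring, div_self (by positivity), mul_one]

theorem Q1_iff : Q1 ↔ ∀ a : ℝ, 0 < a →
    Tendsto (fun T : ℝ => (Nstar T a : ℝ) / N T) atTop (𝓝 (P a)) := by
  have hpi := Real.pi_pos
  refine forall₂_congr fun a _ => ?_
  constructor
  · intro h
    have h1 := h.mul_const (2 * Real.pi)
    rw [div_mul_cancel₀ _ (by positivity)] at h1
    refine h1.congr fun T => ?_
    rw [scale, div_mul_cancel₀ _ (by positivity)]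
  · intro h
    exact (h.div_const (2 * Real.pi)).congr fun T => (scale _ T).symm

theorem off_NF (h : Tendsto (fun T : ℝ => (Noff T : ℝ) / N T) atTop (𝓝 0)) :
    ∀ η : ℝ, 0 < η → ∀ᶠ T : ℝ in atTop, Pool.Agent.Y749.Rig.NF T ≤ η * (T * Real.log T) := by
  classical
  intro η hη
  have hpi := Real.pi_gt_three
  obtain ⟨K, hK⟩ : ∃ K : ℝ, K = ∑ s ∈ Pool.Agent.Y749.Rig.ZZ 0, Pool.Agent.Y749.Rig.mm s :=
    ⟨_, rfl⟩
  have hle : ∀ T : ℝ, Pool.Agent.Y749.Rig.NF T ≤ (Noff T : ℝ) + K := by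
    intro T
    have hfin : {s : ℂ | s ∈ ZZ ∧ 0 < s.im ∧ s.im ≤ T ∧ s.re ≠ 1 / 2}.Finite := by
      refine (Pool.Agent.Y749.Rig.zs_finite T).subset ?_
      rintro s ⟨⟨h1, h2, h3⟩, h4, h5, -⟩
      exact ⟨h1, h2, h3, h4.le, h5⟩
    have e1 : (Noff T : ℝ) = ∑ s ∈ hfin.toFinset, Pool.Agent.Y749.Rig.mm s := by
      unfold Noff
      rw [finsum_mem_eq_finite_toFinset_sum _ hfin]
      push_cast
      rfl
    rw [e1, hK]
    unfold Pool.Agent.Y749.Rig.NF
    refine (Finset.sum_le_sum_of_subset_of_nonneg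
      (t := hfin.toFinset ∪ Pool.Agent.Y749.Rig.ZZ 0) ?_
      fun s _ _ => Pool.Agent.Y749.Rig.mm_nonneg s).trans ?_
    · intro s hs
      rw [Finset.mem_filter, Pool.Agent.Y749.Rig.mem_ZZ] at hs
      obtain ⟨⟨h1, h2, h3, h4, h5⟩, h6⟩ := hs
      rw [Finset.mem_union, Set.Finite.mem_toFinset, Pool.Agent.Y749.Rig.mem_ZZ]
      rcases h4.eq_or_lt with h | h
      · right; exact ⟨h1, h2, h3, h4, h.symm.le⟩
      · left; exact ⟨⟨h1, h2, h3⟩, h, h5, h6⟩
    · have := Finset.sum_union_inter (s₁ := hfin.toFinset) (s₂ := Pool.Agent.Y749.Rig.ZZ 0)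
        (f := Pool.Agent.Y749.Rig.mm)
      have h0 : 0 ≤ ∑ s ∈ hfin.toFinset ∩ Pool.Agent.Y749.Rig.ZZ 0, Pool.Agent.Y749.Rig.mm s :=
        Finset.sum_nonneg fun s _ => Pool.Agent.Y749.Rig.mm_nonneg s
      linarith
  filter_upwards [h.eventually (eventually_lt_nhds (show 0 < η / 2 by positivity)),
    Pool.Agent.Y744.UNC.const_small K (show 0 < η / 2 by positivity),
    eventually_ge_atTop 10] with T h1 h2 hT
  have hn := Pool.Agent.Y749.Rig.nT_pos hT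
  have hL := Pool.Agent.Y749.Rig.one_lt_log (show 3 ≤ T by linarith)
  rw [N_eq, div_lt_iff₀ hn] at h1
  rw [div_le_iff₀ hn] at h2
  have h3 : Pool.Agent.Y749.Rig.nT T ≤ T * Real.log T := by
    unfold Pool.Agent.Y749.Rig.nT
    apply div_le_self (by positivity)
    linarith
  have h4 := hle T
  nlinarith

theorem NF_off (h : ∀ η : ℝ, 0 < η →
    ∀ᶠ T : ℝ in atTop, Pool.Agent.Y749.Rig.NF T ≤ η * (T * Real.log T)) :
    Tendsto (fun T : ℝ => (Noff T : ℝ) / N T) atTop (𝓝 0) := by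
  classical
  have hpi := Real.pi_pos
  have hle : ∀ T : ℝ, (Noff T : ℝ) ≤ Pool.Agent.Y749.Rig.NF T := by
    intro T
    have hfin : {s : ℂ | s ∈ ZZ ∧ 0 < s.im ∧ s.im ≤ T ∧ s.re ≠ 1 / 2}.Finite := by
      refine (Pool.Agent.Y749.Rig.zs_finite T).subset ?_
      rintro s ⟨⟨h1, h2, h3⟩, h4, h5, -⟩
      exact ⟨h1, h2, h3, h4.le, h5⟩
    have e1 : (Noff T : ℝ) = ∑ s ∈ hfin.toFinset, Pool.Agent.Y749.Rig.mm s := by
      unfold Noff
      rw [finsum_mem_eq_finite_toFinset_sum _ hfin]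
      push_cast
      rfl
    rw [e1]
    unfold Pool.Agent.Y749.Rig.NF
    refine Finset.sum_le_sum_of_subset_of_nonneg ?_
      fun s _ _ => Pool.Agent.Y749.Rig.mm_nonneg s
    intro s hs
    rw [Set.Finite.mem_toFinset] at hs
    obtain ⟨⟨h1, h2, h3⟩, h4, h5, h6⟩ := hs
    rw [Finset.mem_filter, Pool.Agent.Y749.Rig.mem_ZZ]
    exact ⟨⟨h1, h2, h3, h4.le, h5⟩, h6⟩
  rw [Metric.tendsto_nhds]
  intro ε hε
  filter_upwards [h (ε / (4 * Real.pi)) (by positivity), eventually_ge_atTop 10] with T hT hT10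
  have hn := Pool.Agent.Y749.Rig.nT_pos hT10
  rw [N_eq, Real.dist_eq, sub_zero, abs_of_nonneg (by positivity), div_lt_iff₀ hn]
  refine lt_of_le_of_lt ((hle T).trans hT) ?_
  have : ε / (4 * Real.pi) * (T * Real.log T) = ε / 2 * Pool.Agent.Y749.Rig.nT T := by
    unfold Pool.Agent.Y749.Rig.nT; field_simp; ring
  rw [this]
  nlinarith

/-- **Main theorem.** -/
theorem result :
    -- one-sided bound from below at large distances
    (Q1 ↔ ∃ A C c : ℝ, 0 < A ∧ 0 < C ∧ 0 < c ∧ ∀ a : ℝ, A ≤ a → ∀ ε : ℝ, 0 < ε →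
      ∀ᶠ T : ℝ in atTop, P a / (2 * Real.pi) - C * Real.exp (-(c * a)) - ε ≤
        (Nstar T a : ℝ) / (T * Real.log T)) ∧
    -- one-sided bound from above at large distances
    (Q1 ↔ Tendsto (fun T : ℝ => (Noff T : ℝ) / N T) atTop (𝓝 0) ∧
      ∃ A C c : ℝ, 0 < A ∧ 0 < C ∧ 0 < c ∧ ∀ a : ℝ, A ≤ a → ∀ ε : ℝ, 0 < ε →
      ∀ᶠ T : ℝ in atTop, ((Neq T : ℝ) + 2 * (Nstar T a : ℝ)) / N T ≤
        1 + 2 * P a + C * Real.exp (-(c * a)) + ε) := by
  have hpi := Real.pi_pos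
  have hN : N = Pool.Agent.Y749.Rig.nT := funext N_eq
  have fin : (∀ x, Tendsto (fun T => Pool.Agent.Y744.UNC.Ac T x) atTop
      (𝓝 (Pool.Agent.Y744.AG x))) → Q1 := by
    intro h
    rw [Q1_iff, hN]
    intro a ha
    exact Pool.Agent.Y744.UNC.nstar_of_Ac h ha.le
  -- the lower bound in the normalisation of the library
  have low : (∃ A C c : ℝ, 0 < A ∧ 0 < C ∧ 0 < c ∧ ∀ a : ℝ, A ≤ a → ∀ ε : ℝ, 0 < ε →
      ∀ᶠ T : ℝ in atTop, P a / (2 * Real.pi) - C * Real.exp (-(c * a)) - ε ≤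
        (Nstar T a : ℝ) / (T * Real.log T)) →
      ∃ A C c : ℝ, 0 < A ∧ 0 ≤ C ∧ 0 < c ∧ ∀ a, A ≤ a → ∀ ε, 0 < ε → ∀ᶠ T : ℝ in atTop,
      Pool.Agent.Y750.PC.Pc a - C * Real.exp (-(c * a)) - ε ≤
        (Pool.Agent.Y750.PC.nstar T a : ℝ) / Pool.Agent.Y749.Rig.nT T := by
    rintro ⟨A, C, c, hA, hC, hc, h⟩
    refine ⟨A, 2 * Real.pi * C, c, hA, by positivity, hc, fun a ha ε hε => ?_⟩
    filter_upwards [h a ha (ε / (2 * Real.pi)) (by positivity)] with T hT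
    rw [scale, hN, le_div_iff₀ (by positivity)] at hT
    have e : (P a / (2 * Real.pi) - C * Real.exp (-(c * a)) - ε / (2 * Real.pi)) *
        (2 * Real.pi) = P a - 2 * Real.pi * C * Real.exp (-(c * a)) - ε := by
      field_simp
    rw [e] at hT
    exact hT
  have q_low : Q1 → (∃ A C c : ℝ, 0 < A ∧ 0 < C ∧ 0 < c ∧ ∀ a : ℝ, A ≤ a → ∀ ε : ℝ, 0 < ε →
      ∀ᶠ T : ℝ in atTop, P a / (2 * Real.pi) - C * Real.exp (-(c * a)) - ε ≤
        (Nstar T a : ℝ) / (T * Real.log T)) := by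
    intro h
    refine ⟨1, 1, 1, one_pos, one_pos, one_pos, fun a ha ε hε => ?_⟩
    have h1 := h a (by linarith)
    filter_upwards [h1.eventually (eventually_gt_nhds (show P a / (2 * Real.pi) - ε <
      P a / (2 * Real.pi) by linarith))] with T hT
    have := Real.exp_pos (-(1 * a))
    linarith
  have q_all : Q1 → (∀ η : ℝ, 0 < η →
      ∀ᶠ T : ℝ in atTop, Pool.Agent.Y749.Rig.NF T ≤ η * (T * Real.log T)) ∧
      (∀ x, Tendsto (fun T => Pool.Agent.Y744.UNC.Ac T x) atTop (𝓝 (Pool.Agent.Y744.AG x))) := by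
    intro h
    obtain ⟨A, C, c, hA, hC, hc, h1⟩ := low (q_low h)
    exact ⟨Pool.Agent.Y744.UNC.off_of_lb hA hC hc h1, Pool.Agent.Y744.UNC.lower_all hA hC hc h1⟩
  refine ⟨⟨q_low, fun h => ?_⟩, ⟨fun h => ?_, fun h => ?_⟩⟩
  · obtain ⟨A, C, c, hA, hC, hc, h1⟩ := low h
    exact fin (Pool.Agent.Y744.UNC.lower_all hA hC hc h1)
  · obtain ⟨h1, h2⟩ := q_all h
    refine ⟨NF_off h1, 1, 1, 1, one_pos, one_pos, one_pos, fun a ha ε hε => ?_⟩
    have h3 := Pool.Agent.Y744.UNC.neq_of_Ac h2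
    have h4 := Pool.Agent.Y744.UNC.nstar_of_Ac h2 (show 0 ≤ a by linarith)
    have h5 := h3.add (h4.const_mul 2)
    filter_upwards [h5.eventually (eventually_lt_nhds (show 1 + 2 * Pool.Agent.Y750.PC.Pc a <
      1 + 2 * Pool.Agent.Y750.PC.Pc a + ε by linarith))] with T hT
    rw [hN, add_div, mul_div_assoc]
    have := Real.exp_pos (-(1 * a))
    have e : P a = Pool.Agent.Y750.PC.Pc a := rfl
    have e2 : (Neq T : ℝ) = (Pool.Agent.Y750.PC.neq T : ℝ) := rfl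
    have e3 : (Nstar T a : ℝ) = (Pool.Agent.Y750.PC.nstar T a : ℝ) := rfl
    rw [e, e2, e3]
    linarith
  · obtain ⟨h1, A, C, c, hA, hC, hc, h2⟩ := h
    rw [hN] at h2
    exact fin (Pool.Agent.Y744.UNC.upper_all hA hC.le hc (off_NF h1) h2)

end Pool.Agent.Results.MP_f58427_nt.LargeDistanceCriterion
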