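import Pool.Agent.Y750.PC.Fin2

/-!
# Montgomery's pair correlation conjecture at large scales, unconditionally

No hypothesis is assumed.  Let `P(a) = ∫_0^a (1 - (sin πu / πu)²) du` and `N(T) = (T / 2π) log T`.

1. `N*(T, a) = P(a) N(T) + O(N(T))` uniformly in `a > 0`, `a log a ≤ B log T`.
2. The averages of `N*(T, a) - P(a) N(T)` over `x ≤ a ≤ y` are, up to `O(N(T))` for the whole
   integral, equal to `-(y - x)/2` times `Neq(T) - N(T)`, where `Neq(T)` is the number of ordered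
   pairs of zeros with equal ordinates.
3. Hence the number of zeros that are multiple or off the critical line is bounded by the mean
   defect of the conjecture: `(a/2) Nbad(T) ≤ ∫_0^a (P(u) N(T) - N*(T, u)) du + O(N(T))`.
4. If the conjecture holds for all `a < a₀` then all but a proportion `C / a₀` of the zeros are
   simple and on the critical line.
5. The conjecture holds on average at large scales if and only if `Neq(T) ~ N(T)`.
-/

open MeasureTheory Filter Topology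

namespace Pool.Agent.Results.MP_f58427_nt.LargeScales

/-- multiplicity of `s` as a zero of the Riemann zeta function (order of vanishing at `s`) -/
noncomputable def zmult (s : ℂ) : ℕ := analyticOrderNatAt riemannZeta s

/-- the nontrivial zeros of `ζ` -/
def ZZ : Set ℂ := {s : ℂ | riemannZeta s = 0 ∧ 0 < s.re ∧ s.re < 1}

/-- `N*(T, a)` as in the problem: the number of ordered pairs `(γ, γ')` of ordinates of nontrivial
zeros, counted with multiplicity, with `0 < γ ≤ T` and `0 < γ - γ' ≤ 2πa / log T` -/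
noncomputable def Nstar (T a : ℝ) : ℕ :=
  ∑ᶠ p ∈ {p : ℂ × ℂ | p.1 ∈ ZZ ∧ p.2 ∈ ZZ ∧ 0 < p.1.im ∧ p.1.im ≤ T ∧
    0 < p.1.im - p.2.im ∧ p.1.im - p.2.im ≤ 2 * Real.pi * a / Real.log T}, zmult p.1 * zmult p.2

/-- the number of ordered pairs `(γ, γ')` of equal ordinates of nontrivial zeros, counted with
multiplicity (the pairs of a zero with itself included), with `0 < γ ≤ T` -/
noncomputable def Neq (T : ℝ) : ℕ :=
  ∑ᶠ p ∈ {p : ℂ × ℂ | p.1 ∈ ZZ ∧ p.2 ∈ ZZ ∧ 0 < p.1.im ∧ p.1.im ≤ T ∧ p.1.im = p.2.im},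
    zmult p.1 * zmult p.2

/-- the number of zeros with ordinate in `(0, T]`, counted with multiplicity, that are off the
critical line or multiple -/
noncomputable def Nbad (T : ℝ) : ℕ :=
  ∑ᶠ s ∈ {s : ℂ | s ∈ ZZ ∧ 0 < s.im ∧ s.im ≤ T ∧ (s.re ≠ 1 / 2 ∨ deriv riemannZeta s = 0)}, zmult s

/-- the integral of the conjecture (`Real.sinc x = sin x / x`, `Real.sinc 0 = 1`) -/
noncomputable def P (a : ℝ) : ℝ := ∫ u in (0 : ℝ)..a, (1 - Real.sinc (Real.pi * u) ^ 2)

/-- `(T / 2π) log T` -/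
noncomputable def N (T : ℝ) : ℝ := T / (2 * Real.pi) * Real.log T

/-- the sets of pairs that are counted are finite -/
theorem pairs_finite (T a : ℝ) : {p : ℂ × ℂ | p.1 ∈ ZZ ∧ p.2 ∈ ZZ ∧ 0 < p.1.im ∧ p.1.im ≤ T ∧
    0 < p.1.im - p.2.im ∧ p.1.im - p.2.im ≤ 2 * Real.pi * a / Real.log T}.Finite :=
  Pool.Agent.Y750.PC.SP_finite T a

theorem N_eq (T : ℝ) : Pool.Agent.Y750.PC.NT T = N T := by
  unfold Pool.Agent.Y750.PC.NT N
  ring

/-- **Main theorem.** -/
theorem result :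
    (∀ B : ℝ, 1 ≤ B → ∃ C T₀ : ℝ, 0 < C ∧ ∀ T : ℝ, T₀ ≤ T →
      -- the number of pairs
      (∀ a : ℝ, 0 < a → a * Real.log a ≤ B * Real.log T →
        |(Nstar T a : ℝ) - P a * N T| ≤ C * (T * Real.log T)) ∧
      -- its averages
      (∀ x y : ℝ, 0 ≤ x → x ≤ y → y * Real.log y ≤ B * Real.log T →
        IntervalIntegrable (fun a => (Nstar T a : ℝ)) volume x y ∧
        |(∫ a in x..y, ((Nstar T a : ℝ) - P a * N T)) + (y - x) / 2 * ((Neq T : ℝ) - N T)| ≤
          C * (T * Real.log T + (y ^ 2 - x ^ 2) * T)) ∧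
      -- the zeros that are multiple or off the critical line
      (∀ a : ℝ, 0 < a → a * Real.log a ≤ B * Real.log T →
        a / 2 * (Nbad T : ℝ) ≤ (∫ u in (0 : ℝ)..a, (P u * N T - (Nstar T u : ℝ))) +
          C * (T * Real.log T + a ^ 2 * T))) ∧
    -- the conjecture for `a < a₀`
    (∃ C : ℝ, 0 < C ∧ ∀ a₀ : ℝ, 1 ≤ a₀ →
      (∀ a : ℝ, 0 < a → a < a₀ → Tendsto (fun T : ℝ => (Nstar T a : ℝ) / (T * Real.log T)) atTop
        (𝓝 (P a / (2 * Real.pi)))) →
      ∀ᶠ T : ℝ in atTop, (Nbad T : ℝ) ≤ C / a₀ * N T) ∧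
    -- the conjecture on average at large scales
    ((∀ ε : ℝ, 0 < ε → ∃ a₁ : ℝ, ∀ a : ℝ, a₁ ≤ a → ∀ᶠ T : ℝ in atTop,
        |(1 / a) * ∫ u in (0 : ℝ)..a, ((Nstar T u : ℝ) - P u * N T)| ≤ ε * N T) ↔
      Tendsto (fun T : ℝ => (Neq T : ℝ) / N T) atTop (𝓝 1)) := by
  have e : Pool.Agent.Y750.PC.NT = N := funext N_eq
  refine ⟨fun B hB => ?_, ?_, ?_⟩
  · obtain ⟨C, T0, hC, hT0, h⟩ := Pool.Agent.Y750.PC.main B hB
    rw [e] at h
    refine ⟨C, T0, hC, fun T hT => ?_⟩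
    obtain ⟨h1, h2, h3⟩ := h T hT
    exact ⟨h1, fun x y hx hxy hy => ⟨Pool.Agent.Y750.PC.nstar_ii (by linarith) x y,
      h2 x y hx hxy hy⟩, h3⟩
  · obtain ⟨C, hC, h⟩ := Pool.Agent.Y750.PC.cons
    rw [e] at h
    exact ⟨C, hC, h⟩
  · have h := Pool.Agent.Y750.PC.equiv
    rw [e] at h
    exact h

end Pool.Agent.Results.MP_f58427_nt.LargeScales
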