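import Pool.Agent.Y750.OM.Conv1

/-!
# Montgomery's theorem for the ordinates of the zeros, unconditionally

The pair correlation conjecture concerns the ordinates `γ` of all nontrivial zeros.  Here the sums
`∑ f((γ - γ') (log T) / 2π)` over all pairs of zeros with ordinates in `(T, 2T]` are compared,
unconditionally, with the prediction of the conjecture, for every test function `f` with
`f(u) = O(1 / (1 + u²))` whose Fourier transform is Lipschitz and supported in `[-δ, δ]`,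
`δ < 2/3`.
-/

open MeasureTheory

namespace Pool.Agent.Results.MP_f58427_nt.MontgomeryForOrdinates

/-- multiplicity of `s` as a zero of the Riemann zeta function (order of vanishing at `s`) -/
noncomputable def zmult (s : ℂ) : ℕ := analyticOrderNatAt riemannZeta s

/-- the nontrivial zeros of `ζ` with ordinate in `(T, 2T]` -/
def BZ (T : ℝ) : Set ℂ :=
  {s : ℂ | (riemannZeta s = 0 ∧ 0 < s.re ∧ s.re < 1) ∧ T < s.im ∧ s.im ≤ 2 * T}

/-- the number of these zeros, counted with multiplicity -/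
noncomputable def Nz (T : ℝ) : ℝ := ∑ᶠ s ∈ BZ T, (zmult s : ℝ)

/-- the number of those off the critical line, counted with multiplicity -/
noncomputable def Noff (T : ℝ) : ℝ := ∑ᶠ s ∈ {s : ℂ | s ∈ BZ T ∧ s.re ≠ 1 / 2}, (zmult s : ℝ)

/-- the sum of `f((γ - γ') (log T) / 2π)` over the ordered pairs of ordinates of zeros in
`(T, 2T]`, counted with multiplicity (pairs of equal ordinates included) -/
noncomputable def pairSum (f : ℝ → ℝ) (T : ℝ) : ℝ :=
  ∑ᶠ p ∈ {p : ℂ × ℂ | p.1 ∈ BZ T ∧ p.2 ∈ BZ T},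
    (zmult p.1 : ℝ) * (zmult p.2 : ℝ) * f ((p.1.im - p.2.im) * Real.log T / (2 * Real.pi))

/-- the function with Fourier transform `r` (for even `r`) -/
noncomputable def bl (r : ℝ → ℝ) (u : ℝ) : ℝ := ∫ α : ℝ, r α * Real.cos (2 * Real.pi * α * u)

/-- **Montgomery's theorem for the ordinates.**  For every `κ₀ < 2/3` there are `C, θ > 0` such that
for every `0 < δ ≤ κ₀`, every Lipschitz function `r` supported in `[-δ, δ]` with `|r| ≤ R` whose
transform `f = bl r` is `O(1 / (1 + u²))`, and every `ε > 0`, for all large `T` the pair sum of `f`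
differs from the value predicted by the pair correlation conjecture,
`(f(0) + ∫ f(u) (1 - (sin πu / πu)²) du) Nz(T)`, by at most
`(C R δ³ (Noff(T) / Nz(T))^θ + ε) Nz(T)`.  No hypothesis is assumed. -/
theorem result :
    ∀ κ₀ : ℝ, 0 < κ₀ → κ₀ < 2 / 3 → ∃ C θ : ℝ, 0 < C ∧ 0 < θ ∧
      ∀ δ : ℝ, 0 < δ → δ ≤ κ₀ →
      ∀ r : ℝ → ℝ, (∃ K : ℝ, ∀ x y, |r x - r y| ≤ K * |x - y|) → (∀ α, δ < |α| → r α = 0) →
      (∃ A : ℝ, ∀ u, |bl r u| * (1 + u ^ 2) ≤ A) →
      ∀ R : ℝ, (∀ α, |r α| ≤ R) → ∀ ε : ℝ, 0 < ε → ∃ T₀ : ℝ, ∀ T : ℝ, T₀ ≤ T →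
        |pairSum (bl r) T -
          (bl r 0 + ∫ u : ℝ, bl r u * (1 - Real.sinc (Real.pi * u) ^ 2)) * Nz T| ≤
          (C * R * δ ^ 3 * (Noff T / Nz T) ^ θ + ε) * Nz T := by
  intro κ₀ h0 h1
  obtain ⟨C, θ, hC, hθ, h⟩ := Pool.Agent.Y750.OM.main_conv h0 h1
  refine ⟨C, θ, hC, hθ, fun δ hδ hδκ r hr hs hA R hR ε hε => ?_⟩
  obtain ⟨T0, h⟩ := h δ hδ hδκ r hr hs hA R hR ε hε
  refine ⟨T0, fun T hT => ?_⟩
  rw [mul_comm (bl r 0 + _) (Nz T)]
  exact h T hT

end Pool.Agent.Results.MP_f58427_nt.MontgomeryForOrdinates
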