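import Pool.Agent.Y750.OM.Conv2

/-!
# Pair sums of the ordinates, test functions with band in the full range of Montgomery

Unconditionally, for all zeros of `ζ` (on or off the line), the pair sums of the ordinates obey the
one-sided inequality predicted by the pair correlation conjecture, up to a power of the proportion
of zeros off the line, for every test function whose Fourier transform is supported in `(-1, 1)` and
has one sign on `2/3 ≤ |α| < 1` (no sign condition on `|α| < 2/3`); consequently an upper bound for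
the number of pairs of ordinates at a small distance.
-/

open MeasureTheory

namespace Pool.Agent.Results.MP_f58427_nt.OrdinatesFullRange

/-- multiplicity of `s` as a zero of the Riemann zeta function (order of vanishing at `s`) -/
noncomputable def zmult (s : ℂ) : ℕ := analyticOrderNatAt riemannZeta s

/-- the nontrivial zeros of `ζ` with ordinate in `(T, 2T]` -/
def BZ (T : ℝ) : Set ℂ :=
  {s : ℂ | (riemannZeta s = 0 ∧ 0 < s.re ∧ s.re < 1) ∧ T < s.im ∧ s.im ≤ 2 * T}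

/-- the number of these zeros, counted with multiplicity -/
noncomputable def Nz (T : ℝ) : ℝ := ∑ᶠ s ∈ BZ T, (zmult s : ℝ)

/-- the number of those off the critical line, counted with multiplicity -/
noncomputable def Noff (T : ℝ) : ℝ := ∑ᶠ s ∈ {s : ℂ | s ∈ BZ T ∧ s.re ≠ 1 / 2}, (zmult s : ℝ)

/-- the sum of `f((γ - γ') (log T) / 2π)` over the ordered pairs of ordinates of zeros in
`(T, 2T]`, counted with multiplicity (pairs of equal ordinates included) -/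
noncomputable def pairSum (f : ℝ → ℝ) (T : ℝ) : ℝ :=
  ∑ᶠ p ∈ {p : ℂ × ℂ | p.1 ∈ BZ T ∧ p.2 ∈ BZ T},
    (zmult p.1 : ℝ) * (zmult p.2 : ℝ) * f ((p.1.im - p.2.im) * Real.log T / (2 * Real.pi))

/-- the number of ordered pairs of ordinates in `(T, 2T]` with `|γ - γ'| ≤ 2πa / log T`, counted
with multiplicity (pairs of equal ordinates included) -/
noncomputable def closePairs (a T : ℝ) : ℝ :=
  ∑ᶠ p ∈ {p : ℂ × ℂ | p.1 ∈ BZ T ∧ p.2 ∈ BZ T ∧
    |p.1.im - p.2.im| ≤ 2 * Real.pi * a / Real.log T}, (zmult p.1 : ℝ) * (zmult p.2 : ℝ)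

/-- the function with Fourier transform `r` (for even `r`) -/
noncomputable def bl (r : ℝ → ℝ) (u : ℝ) : ℝ := ∫ α : ℝ, r α * Real.cos (2 * Real.pi * α * u)

/-- the value predicted by the pair correlation conjecture for `pairSum (bl r) T / Nz T` -/
noncomputable def pred (r : ℝ → ℝ) : ℝ :=
  bl r 0 + ∫ u : ℝ, bl r u * (1 - Real.sinc (Real.pi * u) ^ 2)

/-- No hypothesis is assumed.  (1) For all `κ₀ < 2/3` and `κ₁ < 1` there is `θ > 0` such that for
every Lipschitz function `r` supported in `[-κ₁, κ₁]` whose transform `bl r` is `O(1 / (1 + u²))`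
and every `ε > 0` there is `C` with: if `r ≥ 0` on `|α| > κ₀`, then
`pairSum (bl r) T ≤ (pred r + ε + C (Noff(T)/Nz(T))^θ) Nz(T)` for all large `T`; if `r ≤ 0` on
`|α| > κ₀`, then `pairSum (bl r) T ≥ (pred r - ε - C (Noff(T)/Nz(T))^θ) Nz(T)`.
(2) For `0 ≤ a < √3/π` and `ε > 0` there are `C, θ > 0` with
`closePairs a T ≤ (4 / (3 - π²a²) + ε + C (Noff(T)/Nz(T))^θ) Nz(T)` for all large `T`. -/
theorem result :
    (∀ κ₀ κ₁ : ℝ, 0 < κ₀ → κ₀ < 2 / 3 → κ₀ < κ₁ → κ₁ < 1 → ∃ θ : ℝ, 0 < θ ∧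
      ∀ r : ℝ → ℝ, (∃ K : ℝ, ∀ x y, |r x - r y| ≤ K * |x - y|) → (∀ α, κ₁ < |α| → r α = 0) →
      (∃ A : ℝ, ∀ u, |bl r u| * (1 + u ^ 2) ≤ A) → ∀ ε : ℝ, 0 < ε →
      ((∀ α, κ₀ < |α| → 0 ≤ r α) → ∃ C T₀ : ℝ, ∀ T : ℝ, T₀ ≤ T →
        pairSum (bl r) T ≤ (pred r + ε + C * (Noff T / Nz T) ^ θ) * Nz T) ∧
      ((∀ α, κ₀ < |α| → r α ≤ 0) → ∃ C T₀ : ℝ, ∀ T : ℝ, T₀ ≤ T →
        (pred r - ε - C * (Noff T / Nz T) ^ θ) * Nz T ≤ pairSum (bl r) T)) ∧
    (∀ a : ℝ, 0 ≤ a → Real.pi ^ 2 * a ^ 2 < 3 → ∀ ε : ℝ, 0 < ε →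
      ∃ C θ T₀ : ℝ, 0 < θ ∧ ∀ T : ℝ, T₀ ≤ T →
        closePairs a T ≤
          (4 / (3 - Real.pi ^ 2 * a ^ 2) + ε + C * (Noff T / Nz T) ^ θ) * Nz T) :=
  ⟨fun _ _ h0 h1 h2 h3 => Pool.Agent.Y750.OM.full_conv h0 h1 h2 h3,
    fun _ ha0 ha _ hε => Pool.Agent.Y750.OM.close_conv ha hε ha0⟩

end Pool.Agent.Results.MP_f58427_nt.OrdinatesFullRange
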